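import Pool.Agent.Helper5.FRD.Goals

/-! Packet FRD-TWOH (MP_79b960_co): two odd circuits and an even circuit. -/

set_option autoImplicit false

namespace Pool.Agent.Helper96.FRD.TWOH

open Finset
open Pool.Agent.Helper5.FRC Pool.Agent.Helper5.FRD

theorem cir_or {V : Type} [DecidableEq V] (n : Equiv.Perm V) (D S : Finset V) (hD : Cir n D)
    (hS : Inv n S) : D ⊆ S ∨ ∀ v ∈ D, v ∉ S := by
  by_cases h : (D ∩ S).Nonempty
  · left
    have h1 : D ∩ S = D := by
      apply hD.2.2 _ inter_subset_left h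
      intro v hv
      rw [mem_inter] at hv ⊢
      exact ⟨hD.2.1 v hv.1, hS v hv.2⟩
    intro v hv
    rw [← h1] at hv
    exact (mem_inter.1 hv).2
  · right
    intro v hv hv'
    exact h ⟨v, mem_inter.2 ⟨hv, hv'⟩⟩

theorem t (hN : NprStmt) (hE : EvenpStmt) (hCl : ClosehStmt) (_hCh : ChainStmt)
    (hSu : SubmStmt) : Pool.Agent.Helper5.FRD.TwohStmt := by
  intro V _ _ n A t C Z hn hPrg hBl hCir hOdd hdis hCZ hEv hCZd hA
  have hmem : ∀ v, v ∈ A ↔ v ∈ C 0 ∨ v ∈ C 1 ∨ v ∈ Z := by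
    intro v
    rw [hA]
    simp [Fin.exists_fin_two, or_assoc]
  have hZA : Z ⊆ A := fun v hv => (hmem v).2 (Or.inr (Or.inr hv))
  obtain ⟨p, p', hp1, -, hpp⟩ := hE V n Z hCZ hEv
  have hp2 : ∀ z ∈ Z, p z = n z ∨ n (p z) = z := fun z hz => (hpp z hz).1
  obtain ⟨t', hR⟩ := hCl V A Z t p hPrg hZA hp1
  obtain ⟨hR1, hR2, hR3⟩ := id hR
  have hd01 : ∀ v, v ∈ C 0 → v ∉ C 1 := by
    intro v h0 h1
    exact disjoint_left.1 (hdis 0 1 (by decide)) h0 h1
  have hd0Z : ∀ v, v ∈ C 0 → v ∉ Z := fun v h0 h1 => disjoint_left.1 (hCZd 0) h0 h1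
  have hd1Z : ∀ v, v ∈ C 1 → v ∉ Z := fun v h0 h1 => disjoint_left.1 (hCZd 1) h0 h1
  have hC0 : C 0 ⊆ A \ Z := fun v hv => mem_sdiff.2 ⟨(hmem v).2 (Or.inl hv), hd0Z v hv⟩
  have hC1 : C 1 ⊆ A \ Z := fun v hv =>
    mem_sdiff.2 ⟨(hmem v).2 (Or.inr (Or.inl hv)), hd1Z v hv⟩
  have hpar : dm t' (C 0) % 2 = (C 0).card % 2 :=
    (hSu V (A \ Z) (C 0) (C 0) t' hR1 hC0 hC0).2.2
  have hpos : 0 < dm t' (C 0) := by
    obtain ⟨k, hk⟩ := hOdd 0
    omega
  obtain ⟨x, hx⟩ : ((C 0).filter fun x => t' x ∉ C 0).Nonempty := card_pos.1 hpos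
  rw [mem_filter] at hx
  obtain ⟨hx0, hx1⟩ := hx
  have hxA := hC0 hx0
  obtain ⟨hy1, hy2, hy3⟩ := hR1 x hxA
  have hy : t' x ∈ C 1 := by
    rw [mem_sdiff, hmem] at hy1
    rcases hy1.1 with h | h | h
    · exact absurd h hx1
    · exact h
    · exact absurd h hy1.2
  set y := t' x with hydef
  have hxy : x ≠ y := fun h => hd01 x hx0 (h ▸ hy)
  set K : Finset V := {x, y} with hK
  have hKsub : K ⊆ A \ Z := by
    intro v hv
    rw [hK, mem_insert, mem_singleton] at hv
    rcases hv with rfl | rfl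
    · exact hxA
    · exact hC1 hy
  have hdm : dm t' K = 0 := by
    unfold dm
    rw [card_eq_zero, filter_eq_empty_iff]
    intro v hv hv'
    apply hv'
    rw [hK, mem_insert, mem_singleton] at hv ⊢
    rcases hv with rfl | rfl
    · right; rfl
    · left; exact hy2
  obtain ⟨W, hWZ, hWp, hWd⟩ := hR2 K hKsub
  rw [hdm] at hWd
  have hYt : ∀ v ∈ K ∪ W, t v ∈ K ∪ W := by
    unfold dm at hWd
    rw [card_eq_zero, filter_eq_empty_iff] at hWd
    intro v hv
    by_contra h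
    exact hWd hv h
  obtain ⟨q0, hq0⟩ := hN V n (C 0) (hCir 0) (hOdd 0) x hx0
  obtain ⟨q1, hq1⟩ := hN V n (C 1) (hCir 1) (hOdd 1) y hy
  let P : V → V := fun v => if v ∈ C 0 then q0 v else if v ∈ C 1 then q1 v else p v
  have hP0 : ∀ v, v ∈ C 0 → P v = q0 v := by
    intro v hv
    simp only [P]
    rw [if_pos hv]
  have hP1 : ∀ v, v ∈ C 1 → P v = q1 v := by
    intro v hv
    simp only [P]
    rw [if_neg (fun h => hd01 v h hv), if_pos hv]
  have hPZ : ∀ v, v ∈ Z → P v = p v := by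
    intro v hv
    simp only [P]
    rw [if_neg (fun h => hd0Z v h hv), if_neg (fun h => hd1Z v h hv)]
  have key : ∀ v ∈ A, P v = v → v = x ∨ v = y := by
    intro v hv hPv
    rcases (hmem v).1 hv with h | h | h
    · rw [hP0 v h] at hPv
      exact Or.inl ((hq0 v h).2.2.2.1 hPv)
    · rw [hP1 v h] at hPv
      exact Or.inr ((hq1 v h).2.2.2.1 hPv)
    · rw [hPZ v h] at hPv
      exact absurd hPv (hp1 v h).2.2
  have hPx : P x = x := by rw [hP0 x hx0]; exact (hq0 x hx0).2.2.2.2 rfl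
  have hPy : P y = y := by rw [hP1 y hy]; exact (hq1 y hy).2.2.2.2 rfl
  have hfA : fx P A ≤ 2 := by
    unfold fx
    refine le_trans (card_le_card (t := {x, y}) ?_) card_le_two
    intro v hv
    rw [mem_filter] at hv
    rw [mem_insert, mem_singleton]
    exact key v hv.1 hv.2
  have hfS : ∀ S ⊆ A, Inv n S → Odd S.card → 1 ≤ fx P S := by
    intro S hSA hSi hSo
    unfold fx
    rw [Nat.one_le_iff_ne_zero, ← Nat.pos_iff_ne_zero, card_pos]
    rcases cir_or n (C 0) S (hCir 0) hSi with h0 | h0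
    · exact ⟨x, mem_filter.2 ⟨h0 hx0, hPx⟩⟩
    · rcases cir_or n (C 1) S (hCir 1) hSi with h1 | h1
      · exact ⟨y, mem_filter.2 ⟨h1 hy, hPy⟩⟩
      · exfalso
        have hSZ : S ⊆ Z := by
          intro v hv
          rcases (hmem v).1 (hSA hv) with h | h | h
          · exact absurd hv (h0 v h)
          · exact absurd hv (h1 v h)
          · exact h
        rcases cir_or n Z S hCZ hSi with h2 | h2
        · have : S = Z := subset_antisymm hSZ h2
          rw [this] at hSo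
          exact (Nat.not_odd_iff_even.2 hEv) hSo
        · have : S = ∅ := by
            rw [eq_empty_iff_forall_notMem]
            intro v hv
            exact h2 v (hSZ hv) hv
          rw [this] at hSo
          simp at hSo
  have hdS : ∀ S ⊆ A, Inv n S → Odd S.card → (∀ v ∈ Z, v ∉ S) → 1 ≤ dm t (S \ (K ∪ W)) := by
    intro S hSA hSi hSo hSZ
    have h5 := hBl S hSA hSi hSo
    have hex : ∃ v ∈ S, t v ∉ S ∧ v ∉ K := by
      by_contra hcon
      push Not at hcon
      have hsub : (S.filter fun v => t v ∉ S) ⊆ K := by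
        intro v hv
        rw [mem_filter] at hv
        exact hcon v hv.1 hv.2
      have h6 := card_le_card hsub
      have h7 : K.card ≤ 2 := card_le_two
      have h8 : dm t S = (S.filter fun v => t v ∉ S).card := rfl
      omega
    obtain ⟨v, hv1, hv2, hv3⟩ := hex
    unfold dm
    rw [Nat.one_le_iff_ne_zero, ← Nat.pos_iff_ne_zero, card_pos]
    refine ⟨v, mem_filter.2 ⟨mem_sdiff.2 ⟨hv1, ?_⟩, fun h => hv2 (mem_sdiff.1 h).1⟩⟩
    rw [mem_union]
    rintro (h | h)
    · exact hv3 h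
    · exact hSZ v (hWZ h) hv1
  refine ⟨P, K ∪ W, ?_, ?_, ?_, ?_, ?_⟩
  · exact union_subset (hKsub.trans sdiff_subset) (hWZ.trans hZA)
  · intro v hv
    rcases (hmem v).1 hv with h | h | h
    · have hq := hq0 v h
      rw [hP0 v h, hP0 (q0 v) hq.1]
      exact ⟨(mem_sdiff.1 (hC0 hq.1)).1, hq.2.1, hq.2.2.1⟩
    · have hq := hq1 v h
      rw [hP1 v h, hP1 (q1 v) hq.1]
      exact ⟨(mem_sdiff.1 (hC1 hq.1)).1, hq.2.1, hq.2.2.1⟩
    · have hq := hp1 v h
      rw [hPZ v h, hPZ (p v) hq.1]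
      exact ⟨hZA hq.1, hq.2.1, Or.inr (hp2 v h)⟩
  · intro v hv
    refine ⟨hYt v hv, ?_⟩
    rcases mem_union.1 hv with h | h
    · rw [hK, mem_insert, mem_singleton] at h
      rcases h with h | h
      · rw [h, hPx, ← h]; exact hv
      · rw [h, hPy, ← h]; exact hv
    · rw [hPZ v (hWZ h)]
      exact mem_union_right _ (hWp v h)
  · intro v hv hPv
    refine ⟨?_, ?_⟩
    · apply mem_union_left
      rw [hK, mem_insert, mem_singleton]
      exact key v hv hPv
    · intro h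
      rcases (hmem v).1 hv with h0 | h1 | h2
      · have hnv : n v ∈ C 0 := (hCir 0).2.1 v h0
        rw [hP0 v h0] at hPv
        rw [hP0 (n v) hnv] at h
        have e1 := (hq0 v h0).2.2.2.1 hPv
        have e2 := (hq0 (n v) hnv).2.2.2.1 h
        exact hn v (e2.trans e1.symm)
      · have hnv : n v ∈ C 1 := (hCir 1).2.1 v h1
        rw [hP1 v h1] at hPv
        rw [hP1 (n v) hnv] at h
        have e1 := (hq1 v h1).2.2.2.1 hPv
        have e2 := (hq1 (n v) hnv).2.2.2.1 h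
        exact hn v (e2.trans e1.symm)
      · rw [hPZ v h2] at hPv
        exact (hp1 v h2).2.2 hPv
  · intro S hSA S' hSA' hSi hSi' hSo hSo' hSS
    have a1 := hfS S hSA hSi hSo
    have a2 := hfS S' hSA' hSi' hSo'
    have a3 : 1 ≤ dm t (S \ (K ∪ W)) ∨ 1 ≤ dm t (S' \ (K ∪ W)) := by
      rcases cir_or n Z S hCZ hSi with h | h
      · right
        apply hdS S' hSA' hSi' hSo'
        intro v hv hv'
        exact disjoint_left.1 hSS (h hv) hv'
      · left
        exact hdS S hSA hSi hSo h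
    rcases a3 with h | h <;> omega

end Pool.Agent.Helper96.FRD.TWOH
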